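import Pool.Agent.H77.EA.Targets3

/-!
# EA, module XC: a maximal subgroup of an `ℓ`-group modulo `K`
-/

open scoped Classical

namespace Pool.Agent.H12.EA.XC

open AMe

theorem xc : T_XC := by
  intro ℓ hℓ Γ _ _ X K h
  obtain ⟨hle, hnor, a, ha⟩ := h
  rcases a with _ | a
  · left
    rw [pow_zero, Subgroup.relIndex_eq_one] at ha
    exact le_antisymm hle ha
  right
  have hKn : (K.subgroupOf X).Normal := by
    constructor
    intro n hn g
    rw [Subgroup.mem_subgroupOf] at hn ⊢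
    exact hnor g g.2 n hn
  have hcard : Nat.card (X ⧸ K.subgroupOf X) = ℓ ^ (a + 1) := ha
  obtain ⟨H, hH⟩ := Sylow.exists_subgroup_card_pow_prime (G := X ⧸ K.subgroupOf X) ℓ (n := a)
    (by rw [hcard]; exact pow_dvd_pow ℓ (Nat.le_succ a))
  have hidx : H.index = ℓ := by
    have h1 := H.card_mul_index
    rw [hH, hcard, pow_succ] at h1
    exact Nat.eq_of_mul_eq_mul_left (pow_pos hℓ.out.pos a) h1
  have hHn : H.Normal := by
    apply Subgroup.normal_of_index_eq_minFac_card
    rw [hidx, hcard]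
    exact (Nat.Prime.pow_minFac hℓ.out (Nat.succ_ne_zero a)).symm
  set f : X →* X ⧸ K.subgroupOf X := QuotientGroup.mk' (K.subgroupOf X) with hf
  have hfs : Function.Surjective f := QuotientGroup.mk'_surjective _
  set M' : Subgroup X := H.comap f with hM'
  have hM'n : M'.Normal := hHn.comap f
  have hM'i : M'.index = ℓ := by
    rw [hM', Subgroup.index_comap_of_surjective H hfs, hidx]
  have hMX : M'.map X.subtype ≤ X := by
    rintro x ⟨y, -, rfl⟩
    exact y.2
  have hsub : (M'.map X.subtype).subgroupOf X = M' := by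
    exact Subgroup.comap_map_eq_self_of_injective X.subtype_injective M'
  have hMi : (M'.map X.subtype).relIndex X = ℓ := by
    rw [Subgroup.relIndex, hsub, hM'i]
  have hKM : K ≤ M'.map X.subtype := by
    intro k hk
    refine ⟨⟨k, hle hk⟩, ?_, rfl⟩
    change f ⟨k, hle hk⟩ ∈ H
    have : f ⟨k, hle hk⟩ = 1 := by
      rw [hf, QuotientGroup.mk'_apply, QuotientGroup.eq_one_iff, Subgroup.mem_subgroupOf]
      exact hk
    rw [this]
    exact H.one_mem
  have hmul := Subgroup.relIndex_mul_relIndex K (M'.map X.subtype) X hKM hMX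
  rw [hMi, ha] at hmul
  have hKMi : K.relIndex (M'.map X.subtype) = ℓ ^ a := by
    rw [pow_succ] at hmul
    exact Nat.eq_of_mul_eq_mul_right hℓ.out.pos hmul
  refine ⟨M'.map X.subtype, ⟨hMX, ?_, 1, by rw [hMi, pow_one]⟩, ⟨hKM, ?_, a, hKMi⟩, hMi, ?_⟩
  · rintro u hu g ⟨y, hy, rfl⟩
    refine ⟨⟨u, hu⟩ * y * ⟨u, hu⟩⁻¹, hM'n.conj_mem y hy _, ?_⟩
    simp
  · intro u hu g hg
    exact hnor u (hMX hu) g hg
  · rw [hKMi, ha, pow_succ, mul_comm]

end Pool.Agent.H12.EA.XC
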